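import Mathlib

/-!
# A finite-dimensional commutative real algebra with enough square-zero elements
-/

set_option autoImplicit false

namespace Pool.Agent.Lib.MP_590da2_gt

open TrivSqZeroExt in
theorem exists_sqZero (n : ℕ) :
    ∃ (A : Type) (_ : NormedCommRing A) (_ : NormedAlgebra ℝ A) (_ : FiniteDimensional ℝ A)
      (x : Fin n → A), (∀ i, x i ^ 2 = 0) ∧ ∏ i, x i ≠ 0 := by
  induction n with
  | zero => exact ⟨ℝ, inferInstance, inferInstance, inferInstance, Fin.elim0, fun i => i.elim0,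
      by simp⟩
  | succ n ih =>
    obtain ⟨A, _, _, _, x, hx, hprod⟩ := ih
    have hfd : FiniteDimensional ℝ (TrivSqZeroExt A A) :=
      inferInstanceAs (FiniteDimensional ℝ (A × A))
    refine ⟨TrivSqZeroExt A A, inferInstance, inferInstance, hfd,
      Fin.cons (inr 1) (fun i => inl (x i)), ?_, ?_⟩
    · intro i
      refine Fin.cases ?_ (fun i => ?_) i
      · simp [pow_two]
      · simp only [Fin.cons_succ]
        rw [pow_two, ← inl_mul, ← pow_two, hx]
        simp
    · rw [Fin.prod_univ_succ]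
      simp only [Fin.cons_zero, Fin.cons_succ]
      have h1 : ∏ i, (inl (x i) : TrivSqZeroExt A A) = inl (∏ i, x i) :=
        (map_prod (inlHom A A) x Finset.univ).symm
      rw [h1, inr_mul_inl]
      intro h0
      apply hprod
      have := congrArg snd h0
      simpa using this

/-- The algebra used for the counterexample. -/
theorem exists_algebra :
    ∃ (A : Type) (_ : NormedCommRing A) (_ : NormedAlgebra ℝ A) (_ : FiniteDimensional ℝ A)
      (h a b c d : A), h ^ 5 = 0 ∧ a ^ 2 = 0 ∧ b ^ 2 = 0 ∧ c ^ 2 = 0 ∧ d ^ 2 = 0 ∧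
        h ^ 4 * (a * b * c * d) ≠ 0 := by
  obtain ⟨A, _, _, _, x, hx, hprod⟩ := exists_sqZero 8
  refine ⟨A, inferInstance, inferInstance, inferInstance, (x 4 + x 5) + (x 6 + x 7), x 0, x 1,
    x 2, x 3, ?_, hx 0, hx 1, hx 2, hx 3, ?_⟩
  · have h1 : (x 4 + x 5) ^ 3 = 0 := by
      linear_combination (x 4 + 3 * x 5) * hx 4 + (3 * x 4 + x 5) * hx 5
    have h2 : (x 6 + x 7) ^ 3 = 0 := by
      linear_combination (x 6 + 3 * x 7) * hx 6 + (3 * x 6 + x 7) * hx 7
    generalize x 4 + x 5 = P at h1 ⊢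
    generalize x 6 + x 7 = R at h2 ⊢
    linear_combination (P ^ 2 + 5 * P * R + 10 * R ^ 2) * h1 +
      (10 * P ^ 2 + 5 * P * R + R ^ 2) * h2
  · have h1 : ((x 4 + x 5) + (x 6 + x 7)) ^ 4 = 24 * (x 4 * x 5 * x 6 * x 7) := by
      have h45 : (x 4 + x 5) ^ 2 = 2 * (x 4 * x 5) := by
        linear_combination hx 4 + hx 5
      have h67 : (x 6 + x 7) ^ 2 = 2 * (x 6 * x 7) := by
        linear_combination hx 6 + hx 7
      have h1 : (x 4 + x 5) ^ 3 = 0 := by
        linear_combination (x 4 + 3 * x 5) * hx 4 + (3 * x 4 + x 5) * hx 5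
      have h2 : (x 6 + x 7) ^ 3 = 0 := by
        linear_combination (x 6 + 3 * x 7) * hx 6 + (3 * x 6 + x 7) * hx 7
      have h3 : ((x 4 + x 5) + (x 6 + x 7)) ^ 4 = 6 * ((x 4 + x 5) ^ 2 * (x 6 + x 7) ^ 2) := by
        generalize x 4 + x 5 = P at h1 ⊢
        generalize x 6 + x 7 = R at h2 ⊢
        linear_combination (P + 4 * R) * h1 + (4 * P + R) * h2
      rw [h3, h45, h67]
      ring
    rw [h1]
    intro h0
    apply hprod
    simp only [Fin.prod_univ_eight]
    have h2 : (24 : A) * (x 0 * x 1 * x 2 * x 3 * x 4 * x 5 * x 6 * x 7) = 0 := by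
      rw [← h0]; ring
    have h3 : (24 : ℝ) • (x 0 * x 1 * x 2 * x 3 * x 4 * x 5 * x 6 * x 7) = 0 := by
      rw [← h2, Algebra.smul_def, map_ofNat]
    exact (smul_eq_zero.1 h3).resolve_left (by norm_num)

end Pool.Agent.Lib.MP_590da2_gt
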