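import Mathlib

/-!
# The nilpotent Lie group of the counterexample

`A` is a commutative real algebra with an element `h` such that `h ^ 5 = 0`. The group `Grp A h` has
underlying space `A⁴`; it is a group of upper triangular `3 × 3` matrices congruent to `1` modulo
`h`, in suitable coordinates.
-/

set_option autoImplicit false

open scoped Manifold ContDiff

namespace Pool.Agent.Lib.MP_590da2_gt

/-- The underlying space of the group. -/
abbrev Sp (A : Type) : Type := A × A × A × A

/-- The group. -/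
def Grp (A : Type) (_h : A) : Type := Sp A

variable {A : Type} [NormedCommRing A] [NormedAlgebra ℝ A] (h : A)

noncomputable instance : TopologicalSpace (Grp A h) := inferInstanceAs (TopologicalSpace (Sp A))
noncomputable instance : ChartedSpace (Sp A) (Grp A h) := chartedSpaceSelf (Sp A)

/-- the inverse of `1 + m` when `m ^ 5 = 0` -/
def vinv (m : A) : A := 1 - m + m ^ 2 - m ^ 3 + m ^ 4

omit [NormedAlgebra ℝ A] in
lemma vinv_mul {m : A} (hm : m ^ 5 = 0) : vinv m * (1 + m) = 1 := by
  unfold vinv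
  linear_combination hm

/-- multiplication -/
def gmul (x y : Sp A) : Sp A :=
  (x.1 + y.1 + h * x.1 * y.1,
   (1 + h * x.1) ^ 2 * y.2.1 + x.2.1 - h * x.2.2.1 * y.2.2.2,
   (1 + h * x.1) ^ 2 * y.2.2.1 + x.2.2.1 * (1 + h * y.1),
   (1 + h * x.1) * y.2.2.2 + x.2.2.2)

/-- inverse -/
def ginv (x : Sp A) : Sp A :=
  (-(x.1 * vinv (h * x.1)),
   -((x.2.1 + h * x.2.2.1 * x.2.2.2 * vinv (h * x.1)) * vinv (h * x.1) ^ 2),
   -(x.2.2.1 * vinv (h * x.1) ^ 3),
   -(x.2.2.2 * vinv (h * x.1)))

omit [NormedAlgebra ℝ A] in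
lemma gmul_assoc (x y z : Sp A) : gmul h (gmul h x y) z = gmul h x (gmul h y z) := by
  simp only [gmul, Prod.mk.injEq]
  refine ⟨?_, ?_, ?_, ?_⟩ <;> ring

omit [NormedAlgebra ℝ A] in
lemma gmul_zero_left (x : Sp A) : gmul h 0 x = x := by
  obtain ⟨x0, x1, x2, x3⟩ := x
  simp [gmul]

omit [NormedAlgebra ℝ A] in
lemma gmul_inv_left (hh : h ^ 5 = 0) (x : Sp A) : gmul h (ginv h x) x = 0 := by
  obtain ⟨x0, x1, x2, x3⟩ := x
  have hm : (h * x0) ^ 5 = 0 := by rw [mul_pow, hh, zero_mul]
  have hv := vinv_mul hm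
  simp only [gmul, ginv]
  generalize vinv (h * x0) = v at hv ⊢
  have hu : 1 + h * -(x0 * v) = v := by linear_combination -hv
  rw [hu]
  simp only [Prod.mk_eq_zero]
  refine ⟨?_, ?_, ?_, ?_⟩
  · linear_combination x0 * (-hv)
  · ring
  · linear_combination (-x2 * v ^ 2) * hv
  · ring

variable [hh : Fact (h ^ 5 = 0)]

noncomputable instance : Group (Grp A h) where
  mul := gmul h
  one := (0 : Sp A)
  inv := ginv h
  mul_assoc := gmul_assoc h
  one_mul := gmul_zero_left h
  mul_one := fun x => by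
    obtain ⟨x0, x1, x2, x3⟩ := x
    change gmul h (x0, x1, x2, x3) 0 = _
    simp [gmul]
  inv_mul_cancel := gmul_inv_left h hh.out

lemma mul_def (x y : Grp A h) : x * y = gmul h x y := rfl
lemma one_def : (1 : Grp A h) = (0 : Sp A) := rfl
lemma inv_def (x : Grp A h) : x⁻¹ = ginv h x := rfl

omit hh in
lemma contDiff_gmul {n : ℕ∞ω} : ContDiff ℝ n (fun p : Sp A × Sp A => gmul h p.1 p.2) := by
  unfold gmul
  fun_prop

omit hh in
lemma contDiff_ginv {n : ℕ∞ω} : ContDiff ℝ n (fun p : Sp A => ginv h p) := by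
  unfold ginv vinv
  fun_prop

instance : IsManifold 𝓘(ℝ, Sp A) ω (Grp A h) :=
  inferInstanceAs (IsManifold 𝓘(ℝ, Sp A) ω (Sp A))

instance : LieGroup 𝓘(ℝ, Sp A) ω (Grp A h) where
  contMDiff_mul := by
    have := (contDiff_gmul (n := ω) h).contMDiff
    rw [modelWithCornersSelf_prod, ← chartedSpaceSelf_prod] at this
    exact this
  contMDiff_inv := (contDiff_ginv (n := ω) h).contMDiff

instance : SimplyConnectedSpace (Grp A h) := by
  have : ContractibleSpace (Sp A) := RealTopologicalVectorSpace.contractibleSpace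
  exact (inferInstance : SimplyConnectedSpace (Sp A))

end Pool.Agent.Lib.MP_590da2_gt
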