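import Pool.Agent.Lib.MP_590da2_gt.Defs
import Pool.Agent.Lib.MP_590da2_gt.Grp

/-!
# Left-invariant vector fields and the Lie bracket of the group `Grp A h`
-/

set_option autoImplicit false

open scoped Manifold ContDiff

namespace Pool.Agent.Lib.MP_590da2_gt

variable {A : Type} [NormedCommRing A] [NormedAlgebra ℝ A] (h : A)

/-- the left-invariant vector field of `v` at `x` -/
def linv (x v : Sp A) : Sp A :=
  ((1 + h * x.1) * v.1,
   (1 + h * x.1) ^ 2 * v.2.1 - h * x.2.2.1 * v.2.2.2,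
   (1 + h * x.1) ^ 2 * v.2.2.1 + h * x.2.2.1 * v.1,
   (1 + h * x.1) * v.2.2.2)

/-- the left-invariant vector field, as a continuous linear map in `v` -/
noncomputable def linvL (x : Sp A) : Sp A →L[ℝ] Sp A where
  toFun := linv h x
  map_add' v w := by
    simp only [linv, Prod.fst_add, Prod.snd_add, Prod.mk_add_mk, Prod.mk.injEq]
    refine ⟨?_, ?_, ?_, ?_⟩ <;> ring
  map_smul' c v := by
    simp only [linv, Prod.smul_fst, Prod.smul_snd, Prod.smul_mk, smul_sub,
      smul_add, mul_smul_comm, RingHom.id_apply]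
  cont := by
    change Continuous fun v => linv h x v
    unfold linv
    fun_prop

omit [NormedAlgebra ℝ A] in
lemma gmul_eq (x y : Sp A) : gmul h x y = x + linv h x y := by
  obtain ⟨x0, x1, x2, x3⟩ := x
  obtain ⟨y0, y1, y2, y3⟩ := y
  simp only [gmul, linv, Prod.mk_add_mk, Prod.mk.injEq]
  refine ⟨?_, ?_, ?_, ?_⟩ <;> ring

/-- the derivative of `x ↦ linv h x w` at `0` -/
noncomputable def dlin (w : Sp A) : Sp A →L[ℝ] Sp A where
  toFun v := (h * v.1 * w.1, 2 * h * v.1 * w.2.1 - h * v.2.2.1 * w.2.2.2,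
    2 * h * v.1 * w.2.2.1 + h * v.2.2.1 * w.1, h * v.1 * w.2.2.2)
  map_add' v v' := by
    simp only [Prod.fst_add, Prod.snd_add, Prod.mk_add_mk, Prod.mk.injEq]
    refine ⟨?_, ?_, ?_, ?_⟩ <;> ring
  map_smul' c v := by
    simp only [Prod.smul_fst, Prod.smul_snd, Prod.smul_mk, smul_sub,
      smul_add, mul_smul_comm, smul_mul_assoc, RingHom.id_apply]
  cont := by
    fun_prop

lemma hasFDerivAt_linv (w : Sp A) : HasFDerivAt (fun x : Sp A => linv h x w) (dlin h w) 0 := by
  have hx0 : HasFDerivAt (fun x : Sp A => x.1) (ContinuousLinearMap.fst ℝ A (A × A × A)) 0 :=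
    hasFDerivAt_fst
  have hx2 : HasFDerivAt (fun x : Sp A => x.2.2.1)
      ((ContinuousLinearMap.fst ℝ A A).comp ((ContinuousLinearMap.snd ℝ A (A × A)).comp
        (ContinuousLinearMap.snd ℝ A (A × A × A)))) 0 :=
    ((ContinuousLinearMap.fst ℝ A A).comp ((ContinuousLinearMap.snd ℝ A (A × A)).comp
        (ContinuousLinearMap.snd ℝ A (A × A × A)))).hasFDerivAt
  have hu := (hx0.const_mul h).const_add 1
  have hu2 := hu.pow 2
  have hh2 := hx2.const_mul h
  have key := (hu.mul_const w.1).prodMk (((hu2.mul_const w.2.1).sub (hh2.mul_const w.2.2.2)).prodMk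
    (((hu2.mul_const w.2.2.1).add (hh2.mul_const w.1)).prodMk (hu.mul_const w.2.2.2)))
  refine HasFDerivAt.congr_fderiv key ?_
  refine ContinuousLinearMap.ext fun v => ?_
  simp only [dlin, ContinuousLinearMap.prod_apply, _root_.smul_apply,
    _root_.sub_apply, _root_.add_apply, ContinuousLinearMap.comp_apply,
    ContinuousLinearMap.coe_fst', ContinuousLinearMap.coe_snd', ContinuousLinearMap.coe_mk',
    LinearMap.coe_mk, AddHom.coe_mk, smul_eq_mul, nsmul_eq_mul, Prod.mk.injEq, Prod.fst_zero]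
  refine ⟨?_, ?_, ?_, ?_⟩ <;> norm_num <;> ring

variable [hh : Fact (h ^ 5 = 0)]

lemma mulInvariantVectorField_eq (v : Sp A) (g : Sp A) :
    (mulInvariantVectorField (I := 𝓘(ℝ, Sp A)) (G := Grp A h) v (show Grp A h from g) : Sp A) =
      linv h g v := by
  have h1 : HasFDerivAt (fun y : Sp A => g + linvL h g y) (linvL h g) (0 : Sp A) :=
    (linvL h g).hasFDerivAt.const_add _
  have h2 : HasFDerivAt (fun y : Sp A => gmul h g y) (linvL h g) (0 : Sp A) := by
    have : (fun y : Sp A => gmul h g y) = fun y : Sp A => g + linvL h g y := by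
      ext1 y
      exact gmul_eq h g y
    rw [this]
    exact h1
  have h3 : HasMFDerivAt 𝓘(ℝ, Sp A) 𝓘(ℝ, Sp A) (fun y : Sp A => gmul h g y) (0 : Sp A)
      (linvL h g) := h2.hasMFDerivAt
  have h4 : mfderiv 𝓘(ℝ, Sp A) 𝓘(ℝ, Sp A) (fun y : Grp A h => (show Grp A h from g) * y)
      (1 : Grp A h) = linvL h g := h3.mfderiv
  unfold mulInvariantVectorField
  rw [h4]
  rfl

/-- the Lie bracket -/
def brk (v w : Sp A) : Sp A :=
  (0, h * (2 * (v.1 * w.2.1 - w.1 * v.2.1) - (v.2.2.1 * w.2.2.2 - w.2.2.1 * v.2.2.2)),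
    h * (v.1 * w.2.2.1 - w.1 * v.2.2.1), h * (v.1 * w.2.2.2 - w.1 * v.2.2.2))

lemma mlieBracket_linv (v w : Sp A) :
    VectorField.mlieBracketWithin 𝓘(ℝ, Sp A) (fun g : Sp A => linv h g v)
      (fun g : Sp A => linv h g w) Set.univ (0 : Sp A) = brk h v w := by
  refine (congrFun (VectorField.mlieBracketWithin_eq_lieBracketWithin (𝕜 := ℝ) (E := Sp A)
    (V := fun g : Sp A => linv h g v) (W := fun g : Sp A => linv h g w) (s := Set.univ))
    (0 : Sp A)).trans ?_
  rw [VectorField.lieBracketWithin_univ, VectorField.lieBracket_eq]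
  change fderiv ℝ (fun g : Sp A => linv h g w) 0 (linv h 0 v) -
    fderiv ℝ (fun g : Sp A => linv h g v) 0 (linv h 0 w) = _
  rw [(hasFDerivAt_linv h w).fderiv, (hasFDerivAt_linv h v).fderiv]
  simp only [dlin, linv, brk, ContinuousLinearMap.coe_mk', LinearMap.coe_mk, AddHom.coe_mk,
    Prod.fst_zero, Prod.snd_zero, Prod.mk_sub_mk, Prod.mk.injEq]
  refine ⟨?_, ?_, ?_, ?_⟩ <;> ring

lemma bracket_eq (v w : GroupLieAlgebra 𝓘(ℝ, Sp A) (Grp A h)) :
    (⁅v, w⁆ : GroupLieAlgebra 𝓘(ℝ, Sp A) (Grp A h)) = brk h v w := by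
  rw [GroupLieAlgebra.bracket_def]
  have h1 : (mulInvariantVectorField v : (g : Grp A h) → TangentSpace 𝓘(ℝ, Sp A) g) =
      fun g => linv h g v := by
    ext1 g
    exact mulInvariantVectorField_eq h v g
  have h2 : (mulInvariantVectorField w : (g : Grp A h) → TangentSpace 𝓘(ℝ, Sp A) g) =
      fun g => linv h g w := by
    ext1 g
    exact mulInvariantVectorField_eq h w g
  rw [h1, h2]
  exact mlieBracket_linv h v w

end Pool.Agent.Lib.MP_590da2_gt
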