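import Mathlib

/-!
# Left-invariant hypercomplex structures, the Obata connection and its holonomy algebra

General definitions, for an arbitrary real Lie group `G`.
-/

set_option autoImplicit false

open scoped Manifold ContDiff

namespace Pool.Agent.Lib.MP_590da2_gt

section Algebra

variable {L : Type*} [LieRing L] [LieAlgebra ℝ L]

/-- A complex structure on the real Lie algebra `L`: a linear map `J` with `J² = -1` and vanishing
Nijenhuis tensor. -/
structure IsComplexStructure (J : L →ₗ[ℝ] L) : Prop where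
  sq : ∀ X, J (J X) = -X
  integrable : ∀ X Y, ⁅X, Y⁆ + J (⁅J X, Y⁆ + ⁅X, J Y⁆) - ⁅J X, J Y⁆ = 0

/-- A hypercomplex structure on the real Lie algebra `L`: three complex structures with
`J₁ J₂ = - J₂ J₁ = J₃`. -/
structure IsHypercomplexStructure (J₁ J₂ J₃ : L →ₗ[ℝ] L) : Prop where
  complex₁ : IsComplexStructure J₁
  complex₂ : IsComplexStructure J₂
  complex₃ : IsComplexStructure J₃
  mul₁₂ : ∀ X, J₁ (J₂ X) = J₃ X
  mul₂₁ : ∀ X, J₂ (J₁ X) = -J₃ X

/-- The Obata connection `∇_X Y` on left-invariant vector fields `X`, `Y` (elements of the Lie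
algebra). -/
noncomputable def obata (J₁ J₂ J₃ : L →ₗ[ℝ] L) (X Y : L) : L :=
  (1 / 2 : ℝ) • (⁅X, Y⁆ + J₁ ⁅J₁ X, Y⁆ - J₂ ⁅X, J₂ Y⁆ + J₃ ⁅J₁ X, J₂ Y⁆)

end Algebra

section Geometry

variable {E : Type*} [NormedAddCommGroup E] [NormedSpace ℝ E]
  {G : Type*} [TopologicalSpace G] [ChartedSpace E G] [Group G]

/-- Let `D X Y` be the value `∇_X Y` of a left-invariant connection `∇` on left-invariant vector
fields `X`, `Y`. All tangent spaces `T_g G` are identified with the Lie algebra by left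
translation. `IsParallelFrame D γ Q` says that `γ` is a smooth curve in `G` and that `Q t` is the
parallel transport along `γ` from `γ 0` to `γ t`: `Q 0 = 1` and, for each `t`, if `ξ` is the
left logarithmic derivative of `γ` at `t` (the tangent vector `γ'(t)` is the value at `γ t` of the
left-invariant vector field of `ξ`), then `d/dt (Q t v) = - ∇_ξ (Q t v)` for all `v`. -/
def IsParallelFrame
    (D : GroupLieAlgebra 𝓘(ℝ, E) G → GroupLieAlgebra 𝓘(ℝ, E) G → GroupLieAlgebra 𝓘(ℝ, E) G)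
    (γ : ℝ → G) (Q : ℝ → E →L[ℝ] E) : Prop :=
  ContMDiff 𝓘(ℝ, ℝ) 𝓘(ℝ, E) ∞ γ ∧ Q 0 = 1 ∧
    ∀ t : ℝ, ∃ ξ : GroupLieAlgebra 𝓘(ℝ, E) G,
      HasMFDerivAt 𝓘(ℝ, ℝ) 𝓘(ℝ, E) γ t
        (ContinuousLinearMap.toSpanSingleton ℝ (mulInvariantVectorField ξ (γ t))) ∧
      ∀ v : E, HasDerivAt (fun s => Q s v) (-(D ξ (Q t v) : E)) t

/-- `Transport D g h P`: `P` is the parallel transport along some piecewise smooth path from `g`
to `h` (tangent spaces identified with the Lie algebra by left translation). -/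
inductive Transport
    (D : GroupLieAlgebra 𝓘(ℝ, E) G → GroupLieAlgebra 𝓘(ℝ, E) G → GroupLieAlgebra 𝓘(ℝ, E) G) :
    G → G → (E →L[ℝ] E) → Prop
  | refl (g : G) : Transport D g g 1
  | step {g : G} {P : E →L[ℝ] E} (γ : ℝ → G) (Q : ℝ → E →L[ℝ] E)
      (hP : Transport D g (γ 0) P) (hQ : IsParallelFrame D γ Q) :
      Transport D g (γ 1) (Q 1 * P)

/-- The holonomy group at the identity: all parallel transports along piecewise smooth loops
based at the identity. -/
def holonomyGroup
    (D : GroupLieAlgebra 𝓘(ℝ, E) G → GroupLieAlgebra 𝓘(ℝ, E) G → GroupLieAlgebra 𝓘(ℝ, E) G) :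
    Set (E →L[ℝ] E) :=
  {P | Transport D 1 1 P}

/-- The holonomy algebra: the Lie algebra of the holonomy group, that is the set of all
endomorphisms `A` whose one-parameter group `exp (t A)` lies in the holonomy group. -/
noncomputable def holonomyAlgebra
    (D : GroupLieAlgebra 𝓘(ℝ, E) G → GroupLieAlgebra 𝓘(ℝ, E) G → GroupLieAlgebra 𝓘(ℝ, E) G) :
    Set (E →L[ℝ] E) :=
  {A | ∀ t : ℝ, NormedSpace.exp (t • A) ∈ holonomyGroup D}

end Geometry

end Pool.Agent.Lib.MP_590da2_gt
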