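import Pool.Agent.Lib.MP_590da2_gt.Grp

/-!
# The group `Grp A h` is nilpotent
-/

set_option autoImplicit false

open scoped Manifold ContDiff

namespace Pool.Agent.Lib.MP_590da2_gt

variable {A : Type} [NormedCommRing A] [NormedAlgebra ℝ A] (h : A)

/-- all coordinates are divisible by `p` -/
def Dv (p : A) (x : Sp A) : Prop := p ∣ x.1 ∧ p ∣ x.2.1 ∧ p ∣ x.2.2.1 ∧ p ∣ x.2.2.2

omit [NormedAlgebra ℝ A] in
lemma Dv.gmul {p : A} {x y : Sp A} (hx : Dv p x) (hy : Dv p y) : Dv p (gmul h x y) := by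
  obtain ⟨h0, h1, h2, h3⟩ := hx
  obtain ⟨k0, k1, k2, k3⟩ := hy
  refine ⟨?_, ?_, ?_, ?_⟩
  · exact dvd_add (dvd_add h0 k0) (k0.mul_left _)
  · exact dvd_sub (dvd_add (k1.mul_left _) h1) (k3.mul_left _)
  · exact dvd_add (k2.mul_left _) (h2.mul_right _)
  · exact dvd_add (k3.mul_left _) h3

omit [NormedAlgebra ℝ A] in
lemma Dv.ginv {p : A} {x : Sp A} (hx : Dv p x) : Dv p (ginv h x) := by
  obtain ⟨h0, h1, h2, h3⟩ := hx
  refine ⟨?_, ?_, ?_, ?_⟩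
  · exact (dvd_neg).2 (h0.mul_right _)
  · exact (dvd_neg).2 ((dvd_add h1 ((h3.mul_left _).mul_right _)).mul_right _)
  · exact (dvd_neg).2 (h2.mul_right _)
  · exact (dvd_neg).2 (h3.mul_right _)

omit [NormedAlgebra ℝ A] in
/-- If `x ≡ y` modulo `p` then `x z ≡ y z` modulo `p`. -/
lemma Dv.sub_gmul {p : A} {x y : Sp A} (z : Sp A) (hxy : Dv p (x - y)) :
    Dv p (Pool.Agent.Lib.MP_590da2_gt.gmul h x z - Pool.Agent.Lib.MP_590da2_gt.gmul h y z) := by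
  obtain ⟨⟨a, ha⟩, ⟨b, hb⟩, ⟨c, hc⟩, ⟨d, hd⟩⟩ := hxy
  obtain ⟨x0, x1, x2, x3⟩ := x
  obtain ⟨y0, y1, y2, y3⟩ := y
  obtain ⟨z0, z1, z2, z3⟩ := z
  simp only [Prod.mk_sub_mk] at ha hb hc hd
  have ea : x0 = y0 + p * a := by linear_combination ha
  have eb : x1 = y1 + p * b := by linear_combination hb
  have ec : x2 = y2 + p * c := by linear_combination hc
  have ed : x3 = y3 + p * d := by linear_combination hd
  subst ea eb ec ed
  simp only [Pool.Agent.Lib.MP_590da2_gt.gmul, Prod.mk_sub_mk]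
  refine ⟨⟨a + h * a * z0, ?_⟩, ⟨(2 * h * a + 2 * h ^ 2 * y0 * a + h ^ 2 * p * a ^ 2) * z1 + b -
    h * c * z3, ?_⟩, ⟨(2 * h * a + 2 * h ^ 2 * y0 * a + h ^ 2 * p * a ^ 2) * z2 +
    c * (1 + h * z0), ?_⟩, ⟨h * a * z3 + d, ?_⟩⟩ <;> ring

omit [NormedAlgebra ℝ A] in
/-- If `x ≡ 0` modulo `p` then `x y ≡ y x` modulo `h p`. -/
lemma Dv.comm {p : A} {x : Sp A} (y : Sp A) (hx : Dv p x) :
    Dv (p * h) (Pool.Agent.Lib.MP_590da2_gt.gmul h x y -
      Pool.Agent.Lib.MP_590da2_gt.gmul h y x) := by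
  obtain ⟨⟨a, ha⟩, ⟨b, hb⟩, ⟨c, hc⟩, ⟨d, hd⟩⟩ := hx
  obtain ⟨x0, x1, x2, x3⟩ := x
  obtain ⟨y0, y1, y2, y3⟩ := y
  simp only at ha hb hc hd
  subst ha hb hc hd
  simp only [Pool.Agent.Lib.MP_590da2_gt.gmul, Prod.mk_sub_mk]
  refine ⟨⟨0, ?_⟩, ⟨(2 * a + h * p * a ^ 2) * y1 - c * y3 - (2 * y0 + h * y0 ^ 2) * b + y2 * d,
    ?_⟩, ⟨(2 * a + h * p * a ^ 2) * y2 + c * y0 - (2 * y0 + h * y0 ^ 2) * c - y2 * a, ?_⟩,
    ⟨a * y3 - y0 * d, ?_⟩⟩ <;> ring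

variable [hh : Fact (h ^ 5 = 0)]

/-- the descending central series -/
noncomputable def ser (k : ℕ) : Subgroup (Grp A h) where
  carrier := {x | Dv (h ^ k) x}
  mul_mem' := fun hx hy => Dv.gmul h hx hy
  one_mem' := ⟨dvd_zero _, dvd_zero _, dvd_zero _, dvd_zero _⟩
  inv_mem' := fun hx => Dv.ginv h hx

open scoped commutatorElement in
lemma isNilpotent_grp : Group.IsNilpotent (Grp A h) := by
  rw [Subgroup.nilpotent_iff_finite_descending_central_series]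
  refine ⟨5, ser h, ⟨?_, ?_⟩, ?_⟩
  · rw [eq_top_iff]
    intro x _
    change Dv (h ^ 0) _
    rw [pow_zero]
    exact ⟨one_dvd _, one_dvd _, one_dvd _, one_dvd _⟩
  · intro x n hx g
    have hx' : Dv (h ^ n) (show Sp A from x) := hx
    let w : Grp A h := (g * x)⁻¹
    have h1 := Dv.sub_gmul h (show Sp A from w) (Dv.comm h (show Sp A from g) hx')
    have h2 : gmul h (gmul h (show Sp A from g) (show Sp A from x)) (show Sp A from w)
        = 0 := mul_inv_cancel (g * x)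
    rw [h2, sub_zero] at h1
    have h3 : ⁅x, g⁆ = (x * g) * (g * x)⁻¹ := by
      rw [commutatorElement_def]
      group
    rw [h3]
    change Dv (h ^ (n + 1)) _
    rw [pow_succ]
    exact h1
  · rw [eq_bot_iff]
    intro x hx
    have hx' : Dv (h ^ 5) (show Sp A from x) := hx
    rw [hh.out] at hx'
    obtain ⟨h0, h1, h2, h3⟩ := hx'
    rw [Subgroup.mem_bot]
    have : (show Sp A from x) = 0 := Prod.ext (zero_dvd_iff.1 h0) (Prod.ext (zero_dvd_iff.1 h1)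
      (Prod.ext (zero_dvd_iff.1 h2) (zero_dvd_iff.1 h3)))
    exact this

end Pool.Agent.Lib.MP_590da2_gt
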