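import Pool.Agent.Lib.MP_590da2_gt.Brk
import Pool.Agent.Lib.MP_590da2_gt.Nil

/-!
# The hypercomplex structure and the holonomy of its Obata connection
-/

set_option autoImplicit false

open scoped Manifold ContDiff

namespace Pool.Agent.Lib.MP_590da2_gt

variable {A : Type} [NormedCommRing A] [NormedAlgebra ℝ A] (h : A)

/-- first complex structure (on the vector space) -/
def j1 : Sp A →ₗ[ℝ] Sp A where
  toFun v := (-v.2.1, v.1, -v.2.2.2, v.2.2.1)
  map_add' v w := by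
    simp only [Prod.fst_add, Prod.snd_add, Prod.mk_add_mk, neg_add]
  map_smul' c v := by
    simp only [Prod.smul_fst, Prod.smul_snd, Prod.smul_mk, RingHom.id_apply, smul_neg]

/-- second complex structure (on the vector space) -/
def j2 : Sp A →ₗ[ℝ] Sp A where
  toFun v := (-v.2.2.1, v.2.2.2, v.1, -v.2.1)
  map_add' v w := by
    simp only [Prod.fst_add, Prod.snd_add, Prod.mk_add_mk, neg_add]
  map_smul' c v := by
    simp only [Prod.smul_fst, Prod.smul_snd, Prod.smul_mk, RingHom.id_apply, smul_neg]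

/-- third complex structure (on the vector space) -/
def j3 : Sp A →ₗ[ℝ] Sp A where
  toFun v := (-v.2.2.2, -v.2.2.1, v.2.1, v.1)
  map_add' v w := by
    simp only [Prod.fst_add, Prod.snd_add, Prod.mk_add_mk, neg_add]
  map_smul' c v := by
    simp only [Prod.smul_fst, Prod.smul_snd, Prod.smul_mk, RingHom.id_apply, smul_neg]

lemma nij1 (x y : Sp A) :
    brk h x y + j1 (brk h (j1 x) y + brk h x (j1 y)) - brk h (j1 x) (j1 y) = 0 := by
  obtain ⟨x0, x1, x2, x3⟩ := x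
  obtain ⟨y0, y1, y2, y3⟩ := y
  simp only [j1, brk, LinearMap.coe_mk, AddHom.coe_mk, Prod.mk_add_mk, Prod.mk_sub_mk,
    Prod.mk_eq_zero]
  refine ⟨?_, ?_, ?_, ?_⟩ <;> ring

lemma nij2 (x y : Sp A) :
    brk h x y + j2 (brk h (j2 x) y + brk h x (j2 y)) - brk h (j2 x) (j2 y) = 0 := by
  obtain ⟨x0, x1, x2, x3⟩ := x
  obtain ⟨y0, y1, y2, y3⟩ := y
  simp only [j2, brk, LinearMap.coe_mk, AddHom.coe_mk, Prod.mk_add_mk, Prod.mk_sub_mk,
    Prod.mk_eq_zero]
  refine ⟨?_, ?_, ?_, ?_⟩ <;> ring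

lemma nij3 (x y : Sp A) :
    brk h x y + j3 (brk h (j3 x) y + brk h x (j3 y)) - brk h (j3 x) (j3 y) = 0 := by
  obtain ⟨x0, x1, x2, x3⟩ := x
  obtain ⟨y0, y1, y2, y3⟩ := y
  simp only [j3, brk, LinearMap.coe_mk, AddHom.coe_mk, Prod.mk_add_mk, Prod.mk_sub_mk,
    Prod.mk_eq_zero]
  refine ⟨?_, ?_, ?_, ?_⟩ <;> ring

/-- twice the Obata connection, divided by `h` -/
def mm (x y : Sp A) : Sp A :=
  (h * (3 * x.1 * y.1 + x.2.1 * y.2.1 - x.2.2.1 * y.2.2.1 - x.2.2.2 * y.2.2.2),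
   h * (3 * x.1 * y.2.1 - x.2.1 * y.1 - x.2.2.1 * y.2.2.2 + x.2.2.2 * y.2.2.1),
   h * (3 * x.1 * y.2.2.1 - x.2.1 * y.2.2.2 + x.2.2.1 * y.1 - x.2.2.2 * y.2.1),
   h * (3 * x.1 * y.2.2.2 + x.2.1 * y.2.2.1 + x.2.2.1 * y.2.1 + x.2.2.2 * y.1))

lemma obata_aux (x y : Sp A) :
    brk h x y + j1 (brk h (j1 x) y) - j2 (brk h x (j2 y)) + j3 (brk h (j1 x) (j2 y)) =
      mm h x y := by
  obtain ⟨x0, x1, x2, x3⟩ := x
  obtain ⟨y0, y1, y2, y3⟩ := y
  simp only [j1, j2, j3, brk, mm, LinearMap.coe_mk, AddHom.coe_mk, Prod.mk_add_mk, Prod.mk_sub_mk,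
    Prod.mk.injEq]
  refine ⟨?_, ?_, ?_, ?_⟩ <;> ring

variable [hh : Fact (h ^ 5 = 0)]

/-- first complex structure (on the Lie algebra) -/
def J1 : GroupLieAlgebra 𝓘(ℝ, Sp A) (Grp A h) →ₗ[ℝ] GroupLieAlgebra 𝓘(ℝ, Sp A) (Grp A h) :=
  (j1 : Sp A →ₗ[ℝ] Sp A)

/-- second complex structure (on the Lie algebra) -/
def J2 : GroupLieAlgebra 𝓘(ℝ, Sp A) (Grp A h) →ₗ[ℝ] GroupLieAlgebra 𝓘(ℝ, Sp A) (Grp A h) :=
  (j2 : Sp A →ₗ[ℝ] Sp A)

/-- third complex structure (on the Lie algebra) -/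
def J3 : GroupLieAlgebra 𝓘(ℝ, Sp A) (Grp A h) →ₗ[ℝ] GroupLieAlgebra 𝓘(ℝ, Sp A) (Grp A h) :=
  (j3 : Sp A →ₗ[ℝ] Sp A)

variable [CompleteSpace A]

lemma hypercomplex : IsHypercomplexStructure (J1 h) (J2 h) (J3 h) where
  complex₁ :=
    { sq := fun x => by
        change (j1 (j1 (show Sp A from x)) : Sp A) = -(show Sp A from x)
        simp [j1]
        rfl
      integrable := fun x y => by
        rw [bracket_eq, bracket_eq, bracket_eq, bracket_eq]
        exact nij1 h x y }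
  complex₂ :=
    { sq := fun x => by
        change (j2 (j2 (show Sp A from x)) : Sp A) = -(show Sp A from x)
        simp [j2]
        rfl
      integrable := fun x y => by
        rw [bracket_eq, bracket_eq, bracket_eq, bracket_eq]
        exact nij2 h x y }
  complex₃ :=
    { sq := fun x => by
        change (j3 (j3 (show Sp A from x)) : Sp A) = -(show Sp A from x)
        simp [j3]
        rfl
      integrable := fun x y => by
        rw [bracket_eq, bracket_eq, bracket_eq, bracket_eq]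
        exact nij3 h x y }
  mul₁₂ := fun x => by
    change (j1 (j2 (show Sp A from x)) : Sp A) = j3 (show Sp A from x)
    simp [j1, j2, j3]
  mul₂₁ := fun x => by
    change (j2 (j1 (show Sp A from x)) : Sp A) = -j3 (show Sp A from x)
    simp [j1, j2, j3]

lemma obata_eq (x y : GroupLieAlgebra 𝓘(ℝ, Sp A) (Grp A h)) :
    obata (J1 h) (J2 h) (J3 h) x y = (show Sp A from (1 / 2 : ℝ) • mm h x y) := by
  unfold obata
  rw [bracket_eq, bracket_eq, bracket_eq, bracket_eq]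
  exact congrArg (fun z : Sp A => (1 / 2 : ℝ) • z) (obata_aux h x y)

end Pool.Agent.Lib.MP_590da2_gt
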