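import Pool.Agent.Lib.MP_590da2_gt.Hol
import Pool.Agent.Lib.MP_590da2_gt.Alg

/-!
# Parallel transport along rectangles, and non-commuting elements of the holonomy algebra
-/

set_option autoImplicit false

open scoped Manifold ContDiff

namespace Pool.Agent.Lib.MP_590da2_gt

variable {A : Type} [NormedCommRing A] [NormedAlgebra ℝ A] (h : A)

/-- the endomorphism `∇_x` -/
noncomputable def kk (x : Sp A) : Sp A →L[ℝ] Sp A where
  toFun y := (1 / 2 : ℝ) • mm h x y
  map_add' y z := by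
    rw [← smul_add]
    congr 1
    simp only [mm, Prod.fst_add, Prod.snd_add, Prod.mk_add_mk, Prod.mk.injEq]
    refine ⟨?_, ?_, ?_, ?_⟩ <;> ring
  map_smul' c y := by
    rw [RingHom.id_apply, smul_comm]
    congr 1
    simp only [mm, Prod.smul_fst, Prod.smul_snd, Prod.smul_mk, ← smul_add, ← smul_sub,
      mul_smul_comm]
  cont := by
    unfold mm
    fun_prop

lemma kk_apply (x y : Sp A) : kk h x y = (1 / 2 : ℝ) • mm h x y := rfl

lemma mm_smul (c : ℝ) (x y : Sp A) : mm h x (c • y) = c • mm h x y := by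
  simp only [mm, Prod.smul_fst, Prod.smul_snd, Prod.smul_mk, ← smul_add, ← smul_sub,
    mul_smul_comm]

lemma smul_mm (c : ℝ) (x y : Sp A) : mm h (c • x) y = c • mm h x y := by
  simp only [mm, Prod.smul_fst, Prod.smul_snd, Prod.smul_mk, ← smul_add, ← smul_sub,
    mul_smul_comm, smul_mul_assoc]

lemma kk_smul (c : ℝ) (x : Sp A) : kk h (c • x) = c • kk h x := by
  refine ContinuousLinearMap.ext fun y => ?_
  rw [_root_.smul_apply, kk_apply, kk_apply, smul_mm, smul_comm]

/-- the three directions -/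
def X1 (p : A) : Sp A := (0, p, 0, 0)
/-- the three directions -/
def X2 (p : A) : Sp A := (0, 0, p, 0)
/-- the three directions -/
def X3 (p : A) : Sp A := (0, 0, 0, p)

omit [NormedAlgebra ℝ A] in
lemma mm_X1 (p : A) (y : Sp A) :
    mm h (X1 p) y = (h * p * y.2.1, -(h * p * y.1), -(h * p * y.2.2.2), h * p * y.2.2.1) := by
  simp only [mm, X1, Prod.mk.injEq]
  refine ⟨?_, ?_, ?_, ?_⟩ <;> ring

omit [NormedAlgebra ℝ A] in
lemma mm_X2 (p : A) (y : Sp A) :
    mm h (X2 p) y = (-(h * p * y.2.2.1), -(h * p * y.2.2.2), h * p * y.1, h * p * y.2.1) := by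
  simp only [mm, X2, Prod.mk.injEq]
  refine ⟨?_, ?_, ?_, ?_⟩ <;> ring

omit [NormedAlgebra ℝ A] in
lemma mm_X3 (p : A) (y : Sp A) :
    mm h (X3 p) y = (-(h * p * y.2.2.2), h * p * y.2.2.1, -(h * p * y.2.1), h * p * y.1) := by
  simp only [mm, X3, Prod.mk.injEq]
  refine ⟨?_, ?_, ?_, ?_⟩ <;> ring

lemma kk_mul_apply (x y z : Sp A) :
    (kk h x * kk h y) z = (1 / 4 : ℝ) • mm h x (mm h y z) := by
  change kk h x (kk h y z) = _
  rw [kk_apply, kk_apply, mm_smul, smul_smul]
  norm_num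

lemma kk_mul3_apply (x y z w : Sp A) :
    (kk h x * kk h y * kk h z) w = (1 / 8 : ℝ) • mm h x (mm h y (mm h z w)) := by
  change (kk h x * kk h y) (kk h z w) = _
  rw [kk_mul_apply, kk_apply, mm_smul, mm_smul, smul_smul]
  norm_num

lemma sq_X1 {p : A} (hp : p ^ 2 = 0) : kk h (X1 p) * kk h (X1 p) = 0 := by
  refine ContinuousLinearMap.ext fun y => ?_
  rw [kk_mul_apply, mm_X1, mm_X1]
  simp only [_root_.zero_apply, smul_eq_zero, Prod.mk_eq_zero]
  right
  refine ⟨?_, ?_, ?_, ?_⟩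
  · linear_combination (-(h ^ 2 * y.1)) * hp
  · linear_combination (-(h ^ 2 * y.2.1)) * hp
  · linear_combination (-(h ^ 2 * y.2.2.1)) * hp
  · linear_combination (-(h ^ 2 * y.2.2.2)) * hp

lemma sq_X2 {p : A} (hp : p ^ 2 = 0) : kk h (X2 p) * kk h (X2 p) = 0 := by
  refine ContinuousLinearMap.ext fun y => ?_
  rw [kk_mul_apply, mm_X2, mm_X2]
  simp only [_root_.zero_apply, smul_eq_zero, Prod.mk_eq_zero]
  right
  refine ⟨?_, ?_, ?_, ?_⟩
  · linear_combination (-(h ^ 2 * y.1)) * hp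
  · linear_combination (-(h ^ 2 * y.2.1)) * hp
  · linear_combination (-(h ^ 2 * y.2.2.1)) * hp
  · linear_combination (-(h ^ 2 * y.2.2.2)) * hp

lemma sq_X3 {p : A} (hp : p ^ 2 = 0) : kk h (X3 p) * kk h (X3 p) = 0 := by
  refine ContinuousLinearMap.ext fun y => ?_
  rw [kk_mul_apply, mm_X3, mm_X3]
  simp only [_root_.zero_apply, smul_eq_zero, Prod.mk_eq_zero]
  right
  refine ⟨?_, ?_, ?_, ?_⟩
  · linear_combination (-(h ^ 2 * y.1)) * hp
  · linear_combination (-(h ^ 2 * y.2.1)) * hp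
  · linear_combination (-(h ^ 2 * y.2.2.1)) * hp
  · linear_combination (-(h ^ 2 * y.2.2.2)) * hp

lemma tri_121 {p q : A} (hp : p ^ 2 = 0) :
    kk h (X1 p) * kk h (X2 q) * kk h (X1 p) = 0 := by
  refine ContinuousLinearMap.ext fun y => ?_
  rw [kk_mul3_apply, mm_X1, mm_X2, mm_X1]
  simp only [_root_.zero_apply, smul_eq_zero, Prod.mk_eq_zero]
  right
  refine ⟨?_, ?_, ?_, ?_⟩
  · linear_combination (-(h ^ 3 * q * y.2.2.1)) * hp
  · linear_combination (-(h ^ 3 * q * y.2.2.2)) * hp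
  · linear_combination (h ^ 3 * q * y.1) * hp
  · linear_combination (h ^ 3 * q * y.2.1) * hp

lemma tri_212 {p q : A} (hq : q ^ 2 = 0) :
    kk h (X2 q) * kk h (X1 p) * kk h (X2 q) = 0 := by
  refine ContinuousLinearMap.ext fun y => ?_
  rw [kk_mul3_apply, mm_X2, mm_X1, mm_X2]
  simp only [_root_.zero_apply, smul_eq_zero, Prod.mk_eq_zero]
  right
  refine ⟨?_, ?_, ?_, ?_⟩
  · linear_combination (h ^ 3 * p * y.2.1) * hq
  · linear_combination (-(h ^ 3 * p * y.1)) * hq
  · linear_combination (-(h ^ 3 * p * y.2.2.2)) * hq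
  · linear_combination (h ^ 3 * p * y.2.2.1) * hq

lemma tri_131 {p r : A} (hp : p ^ 2 = 0) :
    kk h (X1 p) * kk h (X3 r) * kk h (X1 p) = 0 := by
  refine ContinuousLinearMap.ext fun y => ?_
  rw [kk_mul3_apply, mm_X1, mm_X3, mm_X1]
  simp only [_root_.zero_apply, smul_eq_zero, Prod.mk_eq_zero]
  right
  refine ⟨?_, ?_, ?_, ?_⟩
  · linear_combination (-(h ^ 3 * r * y.2.2.2)) * hp
  · linear_combination (h ^ 3 * r * y.2.2.1) * hp
  · linear_combination (-(h ^ 3 * r * y.2.1)) * hp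
  · linear_combination (h ^ 3 * r * y.1) * hp

lemma tri_313 {p r : A} (hr : r ^ 2 = 0) :
    kk h (X3 r) * kk h (X1 p) * kk h (X3 r) = 0 := by
  refine ContinuousLinearMap.ext fun y => ?_
  rw [kk_mul3_apply, mm_X3, mm_X1, mm_X3]
  simp only [_root_.zero_apply, smul_eq_zero, Prod.mk_eq_zero]
  right
  refine ⟨?_, ?_, ?_, ?_⟩
  · linear_combination (h ^ 3 * p * y.2.1) * hr
  · linear_combination (-(h ^ 3 * p * y.1)) * hr
  · linear_combination (-(h ^ 3 * p * y.2.2.2)) * hr
  · linear_combination (h ^ 3 * p * y.2.2.1) * hr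

/-- The value of the first commutator. -/
lemma comm12_apply (p q : A) (z : Sp A) :
    (kk h (X2 q) * kk h (X1 p) - kk h (X1 p) * kk h (X2 q)) z =
      (1 / 2 : ℝ) • ((h ^ 2 * p * q * z.2.2.2, -(h ^ 2 * p * q * z.2.2.1), h ^ 2 * p * q * z.2.1,
        -(h ^ 2 * p * q * z.1)) : Sp A) := by
  rw [_root_.sub_apply, kk_mul_apply, kk_mul_apply, ← smul_sub, mm_X1, mm_X2, mm_X2, mm_X1]
  have h2 : (1 / 2 : ℝ) = 1 / 4 * 2 := by norm_num
  rw [h2, mul_smul]
  congr 1
  rw [two_smul]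
  simp only [Prod.mk_sub_mk, Prod.mk_add_mk, Prod.mk.injEq]
  refine ⟨?_, ?_, ?_, ?_⟩ <;> ring

/-- The value of the second commutator. -/
lemma comm13_apply (p r : A) (z : Sp A) :
    (kk h (X3 r) * kk h (X1 p) - kk h (X1 p) * kk h (X3 r)) z =
      (1 / 2 : ℝ) • ((-(h ^ 2 * p * r * z.2.2.1), -(h ^ 2 * p * r * z.2.2.2), h ^ 2 * p * r * z.1,
        h ^ 2 * p * r * z.2.1) : Sp A) := by
  rw [_root_.sub_apply, kk_mul_apply, kk_mul_apply, ← smul_sub, mm_X1, mm_X3, mm_X3, mm_X1]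
  have h2 : (1 / 2 : ℝ) = 1 / 4 * 2 := by norm_num
  rw [h2, mul_smul]
  congr 1
  rw [two_smul]
  simp only [Prod.mk_sub_mk, Prod.mk_add_mk, Prod.mk.injEq]
  refine ⟨?_, ?_, ?_, ?_⟩ <;> ring

/-- The exponential of an element of square zero. -/
lemma exp_of_sq_zero {R : Type*} [NormedRing R] [NormedAlgebra ℝ R] {x : R} (hx : x * x = 0) :
    NormedSpace.exp x = 1 + x := by
  rw [NormedSpace.exp_eq_tsum ℝ]
  change ∑' n : ℕ, ((n.factorial : ℝ)⁻¹) • x ^ n = 1 + x
  rw [tsum_eq_sum (s := Finset.range 2)]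
  · simp [Finset.sum_range_succ]
  · intro n hn
    rw [Finset.mem_range, not_lt] at hn
    obtain ⟨k, rfl⟩ := Nat.exists_eq_add_of_le hn
    rw [pow_add, pow_two, hx, zero_mul, smul_zero]

variable [hh : Fact (h ^ 5 = 0)] [CompleteSpace A]

/-- Parallel transport along a straight segment which is an integral curve of a left-invariant
vector field. -/
lemma parallel_line (g X : Sp A) (hX : ∀ t : ℝ, linv h (g + t • X) X = X)
    (hK : kk h X * kk h X = 0) :
    IsParallelFrame (G := Grp A h) (obata (J1 h) (J2 h) (J3 h))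
      (fun t => (show Grp A h from g + t • X)) (fun t => 1 - t • kk h X) := by
  refine ⟨?_, ?_, fun t => ⟨X, ?_, ?_⟩⟩
  · have : ContDiff ℝ ∞ (fun t : ℝ => g + t • X) := by fun_prop
    exact this.contMDiff
  · refine ContinuousLinearMap.ext fun v => ?_
    change v - (0 : ℝ) • kk h X v = v
    rw [zero_smul, sub_zero]
  · have h1 : HasDerivAt (fun t : ℝ => g + t • X) X t := by
      have := ((hasDerivAt_id t).smul_const X).const_add g
      simpa using this
    have h2 : (mulInvariantVectorField (I := 𝓘(ℝ, Sp A)) (G := Grp A h) X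
        (show Grp A h from g + t • X) : Sp A) = X := by
      rw [mulInvariantVectorField_eq]
      exact hX t
    have h3 := (hasDerivAt_iff_hasFDerivAt.1 h1).hasMFDerivAt
    rw [h2]
    exact h3
  · intro v
    have h1 : HasDerivAt (fun s : ℝ => (1 - s • kk h X) v) (-(kk h X v)) t := by
      have := ((hasDerivAt_id t).smul_const (kk h X v)).const_sub v
      simpa using this
    have h4 : (kk h X) ((1 - t • kk h X) v) = kk h X v := by
      have h5 : kk h X (kk h X v) = 0 := by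
        change (kk h X * kk h X) v = 0
        rw [hK]; rfl
      have h6 : (1 - t • kk h X) v = v - t • kk h X v := rfl
      rw [h6, map_sub, map_smul, h5, smul_zero, sub_zero]
    have h2 : obata (J1 h) (J2 h) (J3 h) X ((1 - t • kk h X) v) =
        (show Sp A from kk h X v) := (obata_eq h X _).trans h4
    rw [h2]
    exact h1

/-- Appending one smooth piece to a path. -/
lemma transport_step {D : GroupLieAlgebra 𝓘(ℝ, Sp A) (Grp A h) →
    GroupLieAlgebra 𝓘(ℝ, Sp A) (Grp A h) → GroupLieAlgebra 𝓘(ℝ, Sp A) (Grp A h)}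
    {g k l : Grp A h} {P R : Sp A →L[ℝ] Sp A} (hP : Transport D g k P) {γ : ℝ → Grp A h}
    {Q : ℝ → Sp A →L[ℝ] Sp A} (hQ : IsParallelFrame D γ Q) (h0 : γ 0 = k) (h1 : γ 1 = l)
    (hR : Q 1 = R) : Transport D g l (R * P) := by
  subst h0 h1 hR
  exact Transport.step γ Q hP hQ

lemma linv_neg (x v : Sp A) : linv h x (-v) = -linv h x v := (linvL h x).map_neg v

lemma kk_neg (x : Sp A) : kk h (-x) = -kk h x := by
  refine ContinuousLinearMap.ext fun y => ?_
  have h1 : kk h (-x) y = kk h ((-1 : ℝ) • x) y := by rw [neg_one_smul]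
  rw [h1, kk_smul]
  change (-1 : ℝ) • kk h x y = -(kk h x y)
  rw [neg_one_smul]

lemma ring_key {R : Type*} [Ring R] {K L : R} (hKK : K * K = 0) (hLL : L * L = 0)
    (hKLK : K * L * K = 0) (hLKL : L * K * L = 0) :
    (1 + L) * ((1 + K) * ((1 - L) * ((1 - K) * 1))) = 1 + (L * K - K * L) := by
  have e : (1 + L) * ((1 + K) * ((1 - L) * ((1 - K) * 1))) = 1 + (L * K - K * L) +
      (-(K * K) + K * L * K - L * L + L * L * K - L * (K * K) - L * K * L + L * K * L * K) := by
    noncomm_ring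
  rw [e, hKK, hKLK, hLL, hLKL]
  simp

lemma ring_key2 {R : Type*} [Ring R] {K L : R} (hKK : K * K = 0) (hLL : L * L = 0)
    (hKLK : K * L * K = 0) (hLKL : L * K * L = 0) :
    (L * K - K * L) * (L * K - K * L) = 0 := by
  have e : (L * K - K * L) * (L * K - K * L) = L * K * L * K - L * (K * K) * L
      - K * (L * L) * K + K * L * K * L := by
    noncomm_ring
  rw [e, hLKL, hKK, hLL, hKLK]
  simp

lemma neg_mul_neg_zero {R : Type*} [Ring R] {K : R} (hKK : K * K = 0) : -K * -K = 0 := by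
  rw [neg_mul_neg, hKK]

lemma smul_facts {R : Type*} [Ring R] [Algebra ℝ R] {K L : R} (t : ℝ) (hKK : K * K = 0)
    (hKLK : K * L * K = 0) (hLKL : L * K * L = 0) :
    t • K * t • K = 0 ∧ t • K * L * t • K = 0 ∧ L * t • K * L = 0 ∧
      L * t • K - t • K * L = t • (L * K - K * L) := by
  refine ⟨?_, ?_, ?_, ?_⟩
  · rw [smul_mul_smul_comm, hKK, smul_zero]
  · rw [smul_mul_assoc, smul_mul_assoc, mul_smul_comm, hKLK, smul_zero, smul_zero]
  · rw [mul_smul_comm, smul_mul_assoc, hLKL, smul_zero]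
  · rw [mul_smul_comm, smul_mul_assoc, smul_sub]

/-- The rectangle with sides `X` and `Y`. -/
lemma transport_rectangle (X Y : Sp A)
    (hX : ∀ s t : ℝ, linv h (s • X + t • Y) X = X) (hY : ∀ s t : ℝ, linv h (s • X + t • Y) Y = Y)
    (hXX : kk h X * kk h X = 0) (hYY : kk h Y * kk h Y = 0)
    (hXYX : kk h X * kk h Y * kk h X = 0) (hYXY : kk h Y * kk h X * kk h Y = 0) :
    (1 + (kk h Y * kk h X - kk h X * kk h Y)) ∈
      holonomyGroup (G := Grp A h) (obata (J1 h) (J2 h) (J3 h)) := by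
  have T0 : Transport (obata (J1 h) (J2 h) (J3 h)) (1 : Grp A h) (1 : Grp A h) 1 :=
    Transport.refl 1
  have F1 := parallel_line h 0 X (fun t => by
    have := hX t 0; rwa [zero_smul, add_zero, ← zero_add (t • X)] at this) hXX
  have F2 := parallel_line h X Y (fun t => by
    have := hY 1 t; rwa [one_smul] at this) hYY
  have F3 := parallel_line h (X + Y) (-X) (fun t => by
    have := hX (1 - t) 1
    rw [linv_neg]
    have h3 : X + Y + t • -X = (1 - t) • X + (1 : ℝ) • Y := by module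
    rw [h3, this]) (by rw [kk_neg]; exact neg_mul_neg_zero hXX)
  have F4 := parallel_line h Y (-Y) (fun t => by
    have := hY 0 (1 - t)
    rw [linv_neg]
    have h3 : Y + t • -Y = (0 : ℝ) • X + (1 - t) • Y := by module
    rw [h3, this]) (by rw [kk_neg]; exact neg_mul_neg_zero hYY)
  have T1 := transport_step h (l := (show Grp A h from X)) (R := 1 - kk h X) T0 F1
    (by change (0 : Sp A) + (0 : ℝ) • X = 0; simp) (by change (0 : Sp A) + (1 : ℝ) • X = X; simp)
    (by rw [one_smul])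
  have T2 := transport_step h (l := (show Grp A h from X + Y)) (R := 1 - kk h Y) T1 F2
    (by change X + (0 : ℝ) • Y = X; simp) (by change X + (1 : ℝ) • Y = X + Y; simp)
    (by rw [one_smul])
  have T3 := transport_step h (l := (show Grp A h from Y)) (R := 1 + kk h X) T2 F3
    (by change X + Y + (0 : ℝ) • -X = X + Y; simp)
    (by change X + Y + (1 : ℝ) • -X = Y; simp)
    (by rw [one_smul, kk_neg, sub_neg_eq_add])
  have T4 := transport_step h (l := (1 : Grp A h)) (R := 1 + kk h Y) T3 F4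
    (by change Y + (0 : ℝ) • -Y = Y; simp)
    (by change Y + (1 : ℝ) • -Y = 0; simp)
    (by rw [one_smul, kk_neg, sub_neg_eq_add])
  have key := ring_key hXX hYY hXYX hYXY
  rw [key] at T4
  exact T4

/-- The commutator of `∇_Y` and `∇_X` lies in the holonomy algebra. -/
lemma comm_mem_holonomyAlgebra (X Y : Sp A)
    (hX : ∀ s t : ℝ, linv h (s • X + t • Y) X = X) (hY : ∀ s t : ℝ, linv h (s • X + t • Y) Y = Y)
    (hXX : kk h X * kk h X = 0) (hYY : kk h Y * kk h Y = 0)
    (hXYX : kk h X * kk h Y * kk h X = 0) (hYXY : kk h Y * kk h X * kk h Y = 0) :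
    (kk h Y * kk h X - kk h X * kk h Y) ∈
      holonomyAlgebra (G := Grp A h) (obata (J1 h) (J2 h) (J3 h)) := by
  intro t
  have hlin : ∀ g : Sp A, linv h g (t • X) = t • linv h g X := fun g => (linvL h g).map_smul t X
  have h1 := transport_rectangle h (t • X) Y
    (fun s r => by
      have h3 : s • t • X + r • Y = (s * t) • X + r • Y := by rw [mul_smul]
      rw [hlin, h3, hX])
    (fun s r => by
      have h3 : s • t • X + r • Y = (s * t) • X + r • Y := by rw [mul_smul]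
      rw [h3, hY])
    (by rw [kk_smul]; exact (smul_facts t hXX hXYX hYXY).1) hYY
    (by rw [kk_smul]; exact (smul_facts t hXX hXYX hYXY).2.1)
    (by rw [kk_smul]; exact (smul_facts t hXX hXYX hYXY).2.2.1)
  rw [kk_smul, (smul_facts t hXX hXYX hYXY).2.2.2] at h1
  rw [exp_of_sq_zero]
  · exact h1
  · rw [smul_mul_smul_comm, ring_key2 hXX hYY hXYX hYXY, smul_zero]

/-- **The holonomy algebra of the Obata connection of `Grp A h` is not abelian**, provided that
`A` has enough square-zero elements. -/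
lemma not_commute {a b c d : A} (ha : a ^ 2 = 0) (hb : b ^ 2 = 0) (hc : c ^ 2 = 0)
    (hd : d ^ 2 = 0) (hne : h ^ 4 * (a * b * c * d) ≠ 0) :
    ∃ S ∈ holonomyAlgebra (G := Grp A h) (obata (J1 h) (J2 h) (J3 h)),
      ∃ T ∈ holonomyAlgebra (G := Grp A h) (obata (J1 h) (J2 h) (J3 h)), S * T ≠ T * S := by
  refine ⟨_, comm_mem_holonomyAlgebra h (X1 a) (X2 b) ?_ ?_ (sq_X1 h ha) (sq_X2 h hb)
    (tri_121 h ha) (tri_212 h hb), _, comm_mem_holonomyAlgebra h (X1 c) (X3 d) ?_ ?_
    (sq_X1 h hc) (sq_X3 h hd) (tri_131 h hc) (tri_313 h hd), ?_⟩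
  · intro s t
    simp [linv, X1, X2]
  · intro s t
    simp [linv, X1, X2]
  · intro s t
    simp [linv, X1, X3]
  · intro s t
    simp [linv, X1, X3]
  · intro heq
    have h1 := congrArg (fun T : Sp A →L[ℝ] Sp A => (T ((0, 1, 0, 0) : Sp A)).1) heq
    have h2 : ∀ S T : Sp A →L[ℝ] Sp A, (S * T) ((0, 1, 0, 0) : Sp A) =
      S (T ((0, 1, 0, 0) : Sp A)) := fun S T => rfl
    simp only [h2, comm12_apply, comm13_apply] at h1
    apply hne
    simp only [Prod.smul_mk, smul_zero, mul_zero, neg_zero, mul_one, mul_smul_comm, smul_neg]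
      at h1
    rw [smul_smul, smul_smul] at h1
    have h3 : (h ^ 4 * (a * b * c * d)) = (2 : ℝ) • ((1 / 2 * (1 / 2) : ℝ) •
        (h ^ 2 * a * b * (h ^ 2 * c * d)) - (-((1 / 2 * (1 / 2) : ℝ) •
        (h ^ 2 * c * d * (h ^ 2 * a * b))))) := by
      have e1 : h ^ 2 * a * b * (h ^ 2 * c * d) = h ^ 4 * (a * b * c * d) := by ring
      have e2 : h ^ 2 * c * d * (h ^ 2 * a * b) = h ^ 4 * (a * b * c * d) := by ring
      rw [e1, e2]
      module
    rw [h3, h1]
    simp

end Pool.Agent.Lib.MP_590da2_gt
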