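import Pool.Agent.Lib.MP_590da2_gt.Defs

/-!
# Sanity checks: the formula `obata` defines the torsion-free connection preserving the `J`s
-/

set_option autoImplicit false

namespace Pool.Agent.Lib.MP_590da2_gt

variable {L : Type*} [LieRing L] [LieAlgebra ℝ L] {J₁ J₂ J₃ : L →ₗ[ℝ] L}

lemma IsHypercomplexStructure.mul₃₁ (H : IsHypercomplexStructure J₁ J₂ J₃) (X : L) :
    J₃ (J₁ X) = J₂ X := by
  rw [← H.mul₁₂, H.mul₂₁, ← H.mul₁₂, map_neg, H.complex₁.sq, neg_neg]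

lemma IsHypercomplexStructure.mul₂₃ (H : IsHypercomplexStructure J₁ J₂ J₃) (X : L) :
    J₂ (J₃ X) = J₁ X := by
  rw [← H.mul₁₂, H.mul₂₁, ← H.mul₁₂, H.complex₂.sq, map_neg, neg_neg]

/-- The Obata connection is torsion-free. -/
theorem obata_torsion_free (H : IsHypercomplexStructure J₁ J₂ J₃) (X Y : L) :
    obata J₁ J₂ J₃ X Y - obata J₁ J₂ J₃ Y X = ⁅X, Y⁆ := by
  have h1 := H.complex₁.integrable X Y
  have h2 := H.complex₂.integrable X Y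
  have h3 := H.complex₃.integrable (J₁ X) (J₁ Y)
  rw [H.mul₃₁, H.mul₃₁] at h3
  have s1 : ⁅Y, X⁆ = -⁅X, Y⁆ := (lie_skew Y X).symm
  have s2 : ⁅J₁ Y, X⁆ = -⁅X, J₁ Y⁆ := (lie_skew (J₁ Y) X).symm
  have s3 : ⁅Y, J₂ X⁆ = -⁅J₂ X, Y⁆ := (lie_skew Y (J₂ X)).symm
  have s4 : ⁅J₁ Y, J₂ X⁆ = -⁅J₂ X, J₁ Y⁆ := (lie_skew (J₁ Y) (J₂ X)).symm
  unfold obata
  rw [s1, s2, s3, s4, ← smul_sub]
  simp only [map_add, map_neg] at h1 h2 h3 ⊢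
  have key : ⁅X, Y⁆ + J₁ ⁅J₁ X, Y⁆ - J₂ ⁅X, J₂ Y⁆ + J₃ ⁅J₁ X, J₂ Y⁆ -
      (-⁅X, Y⁆ + -J₁ ⁅X, J₁ Y⁆ - -J₂ ⁅J₂ X, Y⁆ + -J₃ ⁅J₂ X, J₁ Y⁆) = (2 : ℝ) • ⁅X, Y⁆ := by
    linear_combination (norm := module) h1 - h2 + h3
  rw [key, smul_smul]
  norm_num

/-- The Obata connection preserves `J₁`. -/
theorem obata_J₁ (H : IsHypercomplexStructure J₁ J₂ J₃) (X Y : L) :
    obata J₁ J₂ J₃ X (J₁ Y) = J₁ (obata J₁ J₂ J₃ X Y) := by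
  have h1 := congrArg J₁ (H.complex₁.integrable X Y)
  have h2 := congrArg J₃ (H.complex₁.integrable X (J₂ Y))
  unfold obata
  simp only [map_add, map_sub, map_smul, map_neg, map_zero, H.mul₁₂, H.mul₂₁, H.complex₁.sq,
    H.mul₃₁, lie_neg] at h1 h2 ⊢
  congr 1
  have e1 : J₁ (J₃ ⁅J₁ X, J₂ Y⁆) = -J₂ ⁅J₁ X, J₂ Y⁆ := by
    rw [← H.mul₁₂, H.complex₁.sq]
  rw [e1]
  linear_combination (norm := module) h2 - h1

/-- The Obata connection preserves `J₂`. -/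
theorem obata_J₂ (H : IsHypercomplexStructure J₁ J₂ J₃) (X Y : L) :
    obata J₁ J₂ J₃ X (J₂ Y) = J₂ (obata J₁ J₂ J₃ X Y) := by
  unfold obata
  simp only [map_add, map_sub, map_smul, H.mul₂₁, H.complex₂.sq, H.mul₂₃, lie_neg, map_neg]
  congr 1
  abel

end Pool.Agent.Lib.MP_590da2_gt
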